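import Pool.Agent.Lib.MP_b1b13a_lc.Dk.Inst

namespace Pool.Agent.Results.MP_b1b13a_lc.DiscH10

open Pool.Agent.Lib.MP_b1b13a_lc.Dk

/-- Let `U` be an open set of complex numbers and `S` a system of polynomial equations over `ℤ[z]`
that has a solution in holomorphic functions on `U` and such that in every solution the first
unknown maps `U` injectively into the unit disc and attains every nonzero point of the disc.
Then no algorithm decides whether a finite system of polynomial equations over `ℤ[z]` has a
solution in holomorphic functions on `U`.  The unit disc, the exterior of the closed unit disc and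
the plane minus a segment are the instances `inst_disc`, `inst_ext`, `inst_slit`. -/
theorem result (U : Set ℂ) (hU : IsOpen U) (S : List (List (ℤ × List ℕ)))
    (h1 : ∃ xs, Sol U S xs)
    (h2 : ∀ xs, Sol U S xs → Set.InjOn (xs 0) U ∧ Set.MapsTo (xs 0) U (Metric.ball 0 1) ∧
      Set.SurjOn (xs 0) U (Metric.ball 0 1 \ {0})) :
    ¬ ComputablePred fun sys : List (List (ℤ × List ℕ)) => ∃ xs, Sol U sys xs :=
  disc_h10 U hU S h1 h2

end Pool.Agent.Results.MP_b1b13a_lc.DiscH10
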