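import Pool.Agent.Lib.MP_b1b13a_lc.Serial

namespace Pool.Agent.Results.MP_b1b13a_lc.OneUnknown

open Pool.Agent.Lib.MP_b1b13a_lc

/-- No algorithm accepts all systems over `ℤ[z]` that have a solution in `ℤ[z]` and accepts only
systems that have a solution in entire functions whose first member has, at arbitrarily large
radii, a number of zeros bounded by a fixed tower of exponentials. -/
theorem result (K : ℕ) (D : List (List (ℤ × List ℕ)) → Prop)
    (lower : ∀ sys, (∃ xs : ℕ → ℂ → ℂ,
      (∀ i, ∃ p : Polynomial ℤ, ∀ z, xs i z = Polynomial.aeval z p) ∧ Solves sys xs) → D sys)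
    (upper : ∀ sys, D sys → ∃ xs : ℕ → ℂ → ℂ,
      (∀ i, Differentiable ℂ (xs i)) ∧ Sparse K (xs 0) ∧ Solves sys xs) :
    ¬ ComputablePred D :=
  Ser.one_unknown K D lower upper

end Pool.Agent.Results.MP_b1b13a_lc.OneUnknown
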